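import Pool.Agent.Lib.MP_ed9c69_gt.RateC45

open MeasureTheory
open scoped ENNReal
open Pool.Agent.Lib.MP_ed9c69_gt

namespace Pool.Agent.Results.MP_ed9c69_gt.SqrtLogRate

/-- In every dimension `N` there is a centred convex body `K` of volume one with
`Φ_[n](K) ≥ c √n Φ_[n](D_N)` for all `n` up to a constant multiple of `log N`. -/
theorem result : ∃ c : ℝ, 0 < c ∧ ∀ N : ℕ, 1 ≤ N →
    ∃ K D : Set (Euc N), IsCentredBody K ∧ IsUnitVolBall D ∧
      ∀ n : ℕ, 1 ≤ n → 25 ^ (n + 2) ≤ N →
        0 < Phi n D ∧ c * Real.sqrt n * Phi n D ≤ Phi n K := by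
  have hpi := Real.pi_pos
  refine ⟨1 / (2 * Real.exp 1 * Real.sqrt (2 * Real.pi * Real.exp 1)), by positivity,
    fun N hN => ?_⟩
  have hNr : (0 : ℝ) < N := by exact_mod_cast (by omega : 0 < N)
  have hN0 : N ≠ 0 := by omega
  have hs : 0 < Real.sqrt N := Real.sqrt_pos.mpr hNr
  have : Nonempty (Fin N) := ⟨⟨0, by omega⟩⟩
  set lam : ℝ := (N.factorial : ℝ) ^ ((N : ℝ)⁻¹) / 2 with hlam
  have hfac : (0 : ℝ) < N.factorial := by positivity
  have hlam0 : 0 < lam := by positivity
  have hlamN : lam ^ N = N.factorial / 2 ^ N := by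
    rw [hlam, div_pow, Real.rpow_inv_natCast_pow hfac.le hN0]
  have hlam1 : N / (2 * Real.exp 1) ≤ lam := by
    refine le_of_pow_le_pow_left₀ hN0 hlam0.le ?_
    have h := Real.pow_div_factorial_le_exp (N : ℝ) hNr.le N
    rw [hlamN, div_pow, mul_pow, ← Real.exp_nat_mul, mul_one,
      div_le_div_iff₀ (by positivity) (by positivity)]
    rw [div_le_iff₀ hfac] at h
    have h2 : (0 : ℝ) < 2 ^ N := by positivity
    nlinarith
  let K : Set (Euc N) := WithLp.ofLp ⁻¹' B1 N lam
  have hKc : IsCompact K := by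
    have h := (isCompact_B1 N lam).image (PiLp.continuous_toLp 2 (fun _ : Fin N => ℝ))
    convert h using 1
    ext x
    constructor
    · intro hx; exact ⟨WithLp.ofLp x, hx, rfl⟩
    · rintro ⟨y, hy, rfl⟩; exact hy
  have hKvol : volume K = 1 := by
    have h1 : volume K = volume (B1 N lam) :=
      (PiLp.volume_preserving_ofLp (Fin N)).measure_preimage
        (isCompact_B1 N lam).measurableSet.nullMeasurableSet
    have h2 := MeasureTheory.volume_sum_rpow_le (Fin N) (p := 1) le_rfl lam
    simp only [Real.rpow_one, div_one, Fintype.card_fin] at h2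
    have h3 : Real.Gamma (1 + 1) = 1 := by
      have := Real.Gamma_nat_eq_factorial 1
      simpa using this
    rw [h3, Real.Gamma_nat_eq_factorial, ← ENNReal.ofReal_pow hlam0.le,
      ← ENNReal.ofReal_mul (by positivity), hlamN] at h2
    rw [h1, B1, h2]
    have : (N.factorial : ℝ) / 2 ^ N * ((2 * 1) ^ N / N.factorial) = 1 := by
      rw [mul_one]; field_simp
    rw [this, ENNReal.ofReal_one]
  set v : ℝ := (volume (Metric.ball (0 : Euc N) 1)).toReal with hv
  have hv0 : 0 < v := ENNReal.toReal_pos (Metric.measure_ball_pos _ _ one_pos).ne'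
    measure_ball_lt_top.ne
  set r : ℝ := (v⁻¹) ^ ((N : ℝ)⁻¹) with hr
  have hr0 : 0 < r := by positivity
  have hrvol : volume (Metric.closedBall (0 : Euc N) r) = 1 := by
    rw [Measure.addHaar_closedBall _ _ hr0.le, finrank_euclideanSpace_fin, hr,
      Real.rpow_inv_natCast_pow (by positivity) hN0,
      ← ENNReal.ofReal_toReal (measure_ball_lt_top (μ := volume) (x := (0 : Euc N)) (r := 1)).ne,
      ← hv, ← ENNReal.ofReal_mul (by positivity), inv_mul_cancel₀ hv0.ne', ENNReal.ofReal_one]
  have hr1 : r ≤ Real.sqrt N / 2 := by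
    have hm : MeasurableSet (Set.pi Set.univ fun _ : Fin N =>
        Set.Icc (-(r / Real.sqrt N)) (r / Real.sqrt N)) :=
      MeasurableSet.univ_pi fun _ => measurableSet_Icc
    have h1 := (PiLp.volume_preserving_ofLp (Fin N)).measure_preimage hm.nullMeasurableSet
    have h2 : (WithLp.ofLp ⁻¹' (Set.pi Set.univ fun _ : Fin N =>
        Set.Icc (-(r / Real.sqrt N)) (r / Real.sqrt N)) : Set (Euc N)) ⊆
        Metric.closedBall 0 r := by
      intro x hx
      rw [mem_closedBall_zero_iff, EuclideanSpace.norm_eq, Real.sqrt_le_left hr0.le]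
      calc ∑ i, ‖x i‖ ^ 2 ≤ ∑ _i : Fin N, (r / Real.sqrt N) ^ 2 := by
            refine Finset.sum_le_sum fun i _ => ?_
            have := hx i (Set.mem_univ _)
            rw [Real.norm_eq_abs, sq_abs]
            exact sq_le_sq' this.1 this.2
        _ = r ^ 2 := by
            rw [Finset.sum_const, Finset.card_univ, Fintype.card_fin, nsmul_eq_mul, div_pow,
              Real.sq_sqrt hNr.le]
            field_simp
    have h3 := measure_mono (μ := volume) h2
    rw [h1, hrvol, volume_pi_pi] at h3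
    simp only [Real.volume_Icc, Finset.prod_const, Finset.card_univ, Fintype.card_fin] at h3
    rw [← ENNReal.ofReal_pow (by ring_nf; positivity), ENNReal.ofReal_le_one,
      pow_le_one_iff_of_nonneg (by ring_nf; positivity) hN0] at h3
    have h4 : r / Real.sqrt N ≤ 1 / 2 := by linarith
    rw [div_le_iff₀ hs] at h4
    linarith
  refine ⟨K, Metric.closedBall 0 r, ⟨hKc, ?_, ?_, hKvol, ?_⟩, ⟨r, hr0, rfl, hrvol⟩,
    fun n hn0 hn => ?_⟩
  · intro x hx y hy a b ha hb hab
    simp only [K, B1, Set.mem_preimage, Set.mem_ofPred_eq] at hx hy ⊢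
    calc ∑ i, |(a • x + b • y) i| ≤ ∑ i, (a * |x i| + b * |y i|) := by
          refine Finset.sum_le_sum fun i _ => ?_
          simp only [PiLp.add_apply, PiLp.smul_apply, smul_eq_mul]
          refine (abs_add_le _ _).trans (le_of_eq ?_)
          rw [abs_mul, abs_mul, abs_of_nonneg ha, abs_of_nonneg hb]
      _ = a * ∑ i, |x i| + b * ∑ i, |y i| := by
          rw [Finset.sum_add_distrib, Finset.mul_sum, Finset.mul_sum]
      _ ≤ a * lam + b * lam := by gcongr
      _ = lam := by rw [← add_mul, hab, one_mul]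
  · refine ⟨0, mem_interior.mpr ⟨{x : Euc N | ∑ i, |x i| < lam}, fun x hx => ?_, ?_, ?_⟩⟩
    · exact le_of_lt (a := ∑ i, |x i|) hx
    · exact isOpen_lt (by fun_prop) continuous_const
    · simpa using hlam0
  · rw [← integral_indicator hKc.measurableSet]
    have h1 := integral_neg_eq_self (K.indicator fun x : Euc N => x) volume
    have h2 : ∀ x : Euc N, K.indicator (fun x : Euc N => x) (-x) =
        -K.indicator (fun x : Euc N => x) x := by
      intro x
      have hx : -x ∈ K ↔ x ∈ K := by simp [K, B1]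
      by_cases h : x ∈ K
      · rw [Set.indicator_of_mem h, Set.indicator_of_mem (hx.mpr h)]
      · rw [Set.indicator_of_notMem h, Set.indicator_of_notMem (fun h' => h (hx.mp h')), neg_zero]
    simp only [h2, integral_neg] at h1
    have h3 : (2 : ℝ) • ∫ x, K.indicator (fun x : Euc N => x) x = 0 := by
      rw [two_smul]
      nth_rewrite 1 [← h1]
      exact neg_add_cancel _
    exact (smul_eq_zero.mp h3).resolve_left two_ne_zero
  · have h1 : n + 2 < 25 ^ (n + 2) := Nat.lt_pow_self (by norm_num)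
    obtain ⟨h2, h3⟩ := Phi_ball' (N := N) hn0 (by omega) hr0
    refine ⟨h2, le_trans ?_ (Phi_cross_ge' hn0 hn hlam0)⟩
    have h4 : 0 < Real.sqrt n := Real.sqrt_pos.2 (by exact_mod_cast hn0)
    rw [Real.sqrt_div (by positivity)] at h3
    have h5 : 0 < Real.sqrt (2 * Real.pi * Real.exp 1) := by positivity
    generalize Real.sqrt (2 * Real.pi * Real.exp 1) = w at h3 h5
    calc 1 / (2 * Real.exp 1 * w) * Real.sqrt n * Phi n (Metric.closedBall (0 : Euc N) r)
        ≤ 1 / (2 * Real.exp 1 * w) * Real.sqrt n * (Real.sqrt N / 2 * (w / Real.sqrt n)) := by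
          gcongr
          exact h3.trans (by gcongr)
      _ = (Real.sqrt N * Real.sqrt N / (2 * Real.exp 1)) / (2 * Real.sqrt N) := by field_simp
      _ ≤ lam / (2 * Real.sqrt N) := by
          rw [Real.mul_self_sqrt hNr.le]
          gcongr

end Pool.Agent.Results.MP_ed9c69_gt.SqrtLogRate
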